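import Mathlib

namespace Pool.Agent.Results.MP_4caafd_al.IdeallyNotProjectively

universe u v

/-- A class of topological semigroups. -/
abbrev TopSgClass : Type (u + 1) :=
  (Y : Type u) → [Semigroup Y] → [TopologicalSpace Y] → [ContinuousMul Y] → Prop

/-- The class of `T₁` topological semigroups. -/
def T1S : TopSgClass.{u} := fun Y _ _ _ => T1Space Y

/-- The class of Hausdorff zero-dimensional topological semigroups. -/
def TzS : TopSgClass.{u} := fun Y _ _ _ =>
  T2Space Y ∧ TopologicalSpace.IsTopologicalBasis {s : Set Y | IsClopen s}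

/-- The semigroup `X` is `C`-closed. -/
def IsCClosed (C : TopSgClass.{u}) (X : Type v) [Semigroup X] : Prop :=
  ∀ (Y : Type u) [Semigroup Y] [TopologicalSpace Y] [ContinuousMul Y], C Y →
    ∀ h : X →ₙ* Y, @Topology.IsEmbedding X Y ⊥ _ h → IsClosed (Set.range h)

/-- `I` is an ideal (possibly empty). -/
def IsIdeal {X : Type v} [Semigroup X] (I : Set X) : Prop :=
  ∀ a ∈ I, ∀ x : X, a * x ∈ I ∧ x * a ∈ I

/-- The Rees congruence of an ideal. -/
def rees {X : Type v} [Semigroup X] (I : Set X) (hI : IsIdeal I) : Con X where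
  r x y := x = y ∨ (x ∈ I ∧ y ∈ I)
  iseqv := by
    refine ⟨fun x => Or.inl rfl, ?_, ?_⟩
    · rintro x y (rfl | ⟨h1, h2⟩)
      · exact Or.inl rfl
      · exact Or.inr ⟨h2, h1⟩
    · rintro x y z (rfl | ⟨h1, h2⟩) (rfl | ⟨h3, h4⟩)
      · exact Or.inl rfl
      · exact Or.inr ⟨h3, h4⟩
      · exact Or.inr ⟨h1, h2⟩
      · exact Or.inr ⟨h1, h4⟩
  mul' := by
    rintro w x y z (rfl | ⟨h1, h2⟩) (rfl | ⟨h3, h4⟩)
    · exact Or.inl rfl
    · exact Or.inr ⟨(hI _ h3 _).2, (hI _ h4 _).2⟩
    · exact Or.inr ⟨(hI _ h1 _).1, (hI _ h2 _).1⟩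
    · exact Or.inr ⟨(hI _ h1 _).1, (hI _ h2 _).1⟩

/-- `X` is ideally `C`-closed. -/
def IdeallyClosed (C : TopSgClass.{u}) (X : Type v) [Semigroup X] : Prop :=
  ∀ (I : Set X) (hI : IsIdeal I), IsCClosed C (rees I hI).Quotient

/-- `X` is projectively `C`-closed. -/
def ProjectivelyClosed (C : TopSgClass.{u}) (X : Type v) [Semigroup X] : Prop :=
  ∀ c : Con X, IsCClosed C c.Quotient

/-! ### The example -/

/-- The Rees matrix semigroup over a countable Boolean group. -/
@[ext] structure R : Type where
  i : ℕ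
  g : ℕ →₀ ZMod 2
  l : Bool

/-- The sandwich matrix. -/
noncomputable def pm (l : Bool) (j : ℕ) : ℕ →₀ ZMod 2 := if l then Finsupp.single j 1 else 0

noncomputable instance : Semigroup R where
  mul x y := ⟨x.i, x.g + pm x.l y.i + y.g, y.l⟩
  mul_assoc x y z := by
    ext1
    · rfl
    · show (x.g + pm x.l y.i + y.g) + pm y.l z.i + z.g = x.g + pm x.l y.i + (y.g + pm y.l z.i + z.g)
      abel
    · rfl

theorem mul_i (x y : R) : (x * y).i = x.i := rfl
theorem mul_g (x y : R) : (x * y).g = x.g + pm x.l y.i + y.g := rfl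
theorem mul_l (x y : R) : (x * y).l = y.l := rfl

theorem two_zero (g : ℕ →₀ ZMod 2) : g + g = 0 := by
  ext n
  simp only [Finsupp.coe_add, Pi.add_apply, Finsupp.coe_zero, Pi.zero_apply]
  exact CharTwo.add_self_eq_zero _

/-- The element `(0, g, false)`. -/
def el (g : ℕ →₀ ZMod 2) : R := ⟨0, g, false⟩

theorem el_mul (g h : ℕ →₀ ZMod 2) : el g * el h = el (g + h) := by
  ext1
  · rfl
  · show g + pm false 0 + h = g + h
    simp [pm]
  · rfl

section closed
variable {Y : Type u} [Semigroup Y] [TopologicalSpace Y] [ContinuousMul Y] [T1Space Y]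
  (h : R →ₙ* Y) (hh : @Topology.IsEmbedding R Y ⊥ _ h)

include hh

theorem inj : Function.Injective h := by
  let _ : TopologicalSpace R := ⊥
  exact hh.injective

/-- Each point of the image has a neighbourhood meeting the image in that point only. -/
theorem exists_nhd (x : R) : ∃ V : Set Y, IsOpen V ∧ h x ∈ V ∧ ∀ x', h x' ∈ V → x' = x := by
  let _ : TopologicalSpace R := ⊥
  have h1 : IsOpen ({x} : Set R) := trivial
  obtain ⟨V, hV, hV'⟩ := hh.isInducing.isOpen_iff.mp h1
  refine ⟨V, hV, ?_, ?_⟩
  · have : x ∈ h ⁻¹' V := by rw [hV']; rfl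
    exact this
  · intro x' hx'
    have : x' ∈ h ⁻¹' V := hx'
    rw [hV'] at this
    exact this

/-- The group `H`-class is closed in `Y`. -/
theorem group_closed (y : Y) (hy : y ∈ closure (Set.range (fun g => h (el g)))) :
    ∃ g, y = h (el g) := by
  -- `y * y` is the identity of the group
  have hyy : y * y = h (el 0) := by
    have hc : IsClosed {w : Y | w * w = h (el 0)} :=
      isClosed_singleton.preimage (continuous_id.mul continuous_id)
    have hsub : Set.range (fun g => h (el g)) ⊆ {w : Y | w * w = h (el 0)} := by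
      rintro _ ⟨g, rfl⟩
      show h (el g) * h (el g) = h (el 0)
      rw [← map_mul, el_mul, two_zero]
    exact (closure_minimal hsub hc) hy
  obtain ⟨V, hV, hV1, hV2⟩ := exists_nhd h hh (el 0)
  have hcont : Continuous (fun p : Y × Y => p.1 * p.2) := continuous_mul
  have hmem : (fun p : Y × Y => p.1 * p.2) (y, y) ∈ V := by
    show y * y ∈ V
    rw [hyy]; exact hV1
  obtain ⟨U1, U2, hU1, hU2, hy1, hy2, hsub⟩ :=
    isOpen_prod_iff.mp (hV.preimage hcont) y y hmem
  -- all points of the group in `U1 ∩ U2` coincide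
  have huniq : ∀ g g', h (el g) ∈ U1 ∩ U2 → h (el g') ∈ U1 ∩ U2 → g = g' := by
    intro g g' hg hg'
    have h1 : h (el g) * h (el g') ∈ V := hsub (Set.mk_mem_prod hg.1 hg'.2)
    rw [← map_mul, el_mul] at h1
    have h2 := congrArg R.g (hV2 _ h1)
    have h3 : g + g' = 0 := h2
    calc g = g + (g' + g') := by rw [two_zero, add_zero]
      _ = (g + g') + g' := (add_assoc _ _ _).symm
      _ = g' := by rw [h3, zero_add]
  obtain ⟨w, hw, ⟨g, rfl⟩⟩ := mem_closure_iff.mp hy (U1 ∩ U2) (hU1.inter hU2) ⟨hy1, hy2⟩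
  refine ⟨g, ?_⟩
  by_contra hne
  have hopen : IsOpen ((U1 ∩ U2) ∩ {h (el g)}ᶜ) :=
    (hU1.inter hU2).inter isClosed_singleton.isOpen_compl
  obtain ⟨w', ⟨hw1, hw2⟩, ⟨g', rfl⟩⟩ := mem_closure_iff.mp hy _ hopen ⟨⟨hy1, hy2⟩, hne⟩
  apply hw2
  have := huniq g g' hw hw1
  rw [this]
  rfl

theorem range_closed : IsClosed (Set.range h) := by
  rw [← closure_subset_iff_isClosed]
  intro y hy
  -- products `a y b` lie in the group
  have hprod : ∀ a b : R, a.i = 0 → b.l = false → ∃ g, h a * y * h b = h (el g) := by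
    intro a b ha hb
    apply group_closed h hh
    have hcont : Continuous (fun w : Y => h a * w * h b) :=
      (continuous_const.mul continuous_id).mul continuous_const
    have h1 : h a * y * h b ∈ closure ((fun w : Y => h a * w * h b) '' Set.range h) :=
      image_closure_subset_closure_image hcont ⟨y, hy, rfl⟩
    refine closure_mono ?_ h1
    rintro _ ⟨_, ⟨x, rfl⟩, rfl⟩
    refine ⟨(a * x * b).g, ?_⟩
    show h (el (a * x * b).g) = h a * h x * h b
    rw [← map_mul, ← map_mul]
    congr 1
    ext1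
    · exact ha.symm
    · rfl
    · exact hb.symm
  -- near `y` the product `a x b` is constant
  have hloc : ∀ a b : R, a.i = 0 → b.l = false → ∃ (U : Set Y) (g : R), IsOpen U ∧ y ∈ U ∧
      ∀ x, h x ∈ U → a * x * b = g := by
    intro a b ha hb
    obtain ⟨g, hg⟩ := hprod a b ha hb
    obtain ⟨V, hV, hV1, hV2⟩ := exists_nhd h hh (el g)
    have hcont : Continuous (fun w : Y => h a * w * h b) :=
      (continuous_const.mul continuous_id).mul continuous_const
    refine ⟨_, el g, hV.preimage hcont, ?_, ?_⟩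
    · show h a * y * h b ∈ V
      rw [hg]; exact hV1
    · intro x hx
      apply hV2
      rw [map_mul, map_mul]
      exact hx
  obtain ⟨U1, g1, hU1, hy1, h1⟩ := hloc ⟨0, 0, false⟩ ⟨0, 0, false⟩ rfl rfl
  obtain ⟨U2, g2, hU2, hy2, h2⟩ := hloc ⟨0, 0, true⟩ ⟨0, 0, false⟩ rfl rfl
  obtain ⟨U3, g3, hU3, hy3, h3⟩ := hloc ⟨0, 0, false⟩ ⟨1, 0, false⟩ rfl rfl
  have huniq : ∀ x x', h x ∈ U1 ∩ U2 ∩ U3 → h x' ∈ U1 ∩ U2 ∩ U3 → x = x' := by
    rintro x x' ⟨⟨a1, a2⟩, a3⟩ ⟨⟨b1, b2⟩, b3⟩
    have e1 := congrArg R.g ((h1 x a1).trans (h1 x' b1).symm)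
    have e2 := congrArg R.g ((h2 x a2).trans (h2 x' b2).symm)
    have e3 := congrArg R.g ((h3 x a3).trans (h3 x' b3).symm)
    simp only [mul_g, mul_l, pm, Bool.false_eq_true, if_false, if_true, zero_add, add_zero]
      at e1 e2 e3
    -- the first coordinates agree
    have hi : Finsupp.single x.i (1 : ZMod 2) = Finsupp.single x'.i 1 := by
      have : Finsupp.single x.i (1 : ZMod 2) + (x.g + if x.l = true then Finsupp.single 0 1 else 0)
          = Finsupp.single x'.i (1 : ZMod 2) +
            (x'.g + if x'.l = true then Finsupp.single 0 1 else 0) := by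
        rw [← add_assoc, ← add_assoc]; exact e2
      rw [e1] at this
      exact add_right_cancel this
    have hi' : x.i = x'.i := by
      rcases Finsupp.single_eq_single_iff _ _ _ _ |>.mp hi with ⟨h, -⟩ | ⟨h, -⟩
      · exact h
      · exact absurd h one_ne_zero
    -- the last coordinates agree
    have hl : x.l = x'.l := by
      cases hx : x.l <;> cases hx' : x'.l
      · rfl
      · exfalso
        simp only [hx, hx', Bool.false_eq_true, if_false, if_true, add_zero] at e1 e3
        rw [e1] at e3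
        have := add_left_cancel e3
        rcases Finsupp.single_eq_single_iff _ _ _ _ |>.mp this with ⟨h, -⟩ | ⟨h, -⟩
        · exact absurd h (by decide)
        · exact absurd h one_ne_zero
      · exfalso
        simp only [hx, hx', Bool.false_eq_true, if_false, if_true, add_zero] at e1 e3
        rw [← e1] at e3
        have := add_left_cancel e3
        rcases Finsupp.single_eq_single_iff _ _ _ _ |>.mp this with ⟨h, -⟩ | ⟨h, -⟩
        · exact absurd h (by decide)
        · exact absurd h one_ne_zero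
      · rfl
    have hg : x.g = x'.g := by
      rw [hl] at e1
      exact add_right_cancel e1
    exact R.ext hi' hg hl
  have hU : IsOpen (U1 ∩ U2 ∩ U3) := (hU1.inter hU2).inter hU3
  have hyU : y ∈ U1 ∩ U2 ∩ U3 := ⟨⟨hy1, hy2⟩, hy3⟩
  obtain ⟨w, hw, ⟨x, rfl⟩⟩ := mem_closure_iff.mp hy _ hU hyU
  refine ⟨x, ?_⟩
  by_contra hne
  have hopen : IsOpen ((U1 ∩ U2 ∩ U3) ∩ {h x}ᶜ) := hU.inter isClosed_singleton.isOpen_compl
  obtain ⟨w', ⟨hw1, hw2⟩, ⟨x', rfl⟩⟩ := mem_closure_iff.mp hy _ hopen
    ⟨hyU, fun h' => hne (Set.mem_singleton_iff.mp h').symm⟩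
  apply hw2
  have := huniq x x' hw hw1
  rw [this]
  rfl

end closed

theorem R_closed (C : TopSgClass.{u}) (hC : ∀ (Y : Type u) [Semigroup Y] [TopologicalSpace Y]
    [ContinuousMul Y], C Y → T1S Y) : IsCClosed C R := by
  intro Y _ _ _ hY h hh
  have _ : T1Space Y := hC Y hY
  exact range_closed h hh

/-- `C`-closedness is invariant under isomorphism. -/
theorem IsCClosed.of_equiv {C : TopSgClass.{u}} {X X' : Type v} [Semigroup X] [Semigroup X']
    (hX : IsCClosed C X) (e : X ≃* X') : IsCClosed C X' := by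
  intro Y _ _ _ hY h hh
  have h1 : @Topology.IsEmbedding X Y ⊥ _ (h.comp (e : X →ₙ* X')) := by
    let _ : TopologicalSpace X := ⊥
    let _ : TopologicalSpace X' := ⊥
    have _ : DiscreteTopology X := ⟨rfl⟩
    have _ : DiscreteTopology X' := ⟨rfl⟩
    have he : Topology.IsEmbedding (e : X → X') := by
      refine ⟨⟨?_⟩, e.injective⟩
      ext s
      constructor
      · intro _
        rw [isOpen_induced_iff]
        exact ⟨e '' s, isOpen_discrete _, Set.preimage_image_eq s e.injective⟩
      · intro _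
        exact isOpen_discrete _
    exact hh.comp he
  have h2 := hX Y hY (h.comp (e : X →ₙ* X')) h1
  have h3 : Set.range (h.comp (e : X →ₙ* X')) = Set.range h := by
    ext y
    constructor
    · rintro ⟨x, rfl⟩
      exact ⟨e x, rfl⟩
    · rintro ⟨x, rfl⟩
      exact ⟨e.symm x, by simp⟩
  rwa [h3] at h2

/-- `R` is a simple semigroup. -/
theorem R_simple (I : Set R) (hI : IsIdeal I) (x : R) (hx : x ∈ I) (y : R) : y ∈ I := by
  have h1 : y = (⟨y.i, y.g + (x.g + pm x.l 0), false⟩ : R) * x * ⟨0, 0, y.l⟩ := by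
    ext1
    · rfl
    · show y.g = (y.g + (x.g + pm x.l 0)) + pm false x.i + x.g + pm x.l 0 + 0
      have : (y.g + (x.g + pm x.l 0)) + pm false x.i + x.g + pm x.l 0 + 0 =
          y.g + ((x.g + x.g) + (pm x.l 0 + pm x.l 0)) := by
        simp only [pm, Bool.false_eq_true, if_false]
        abel
      rw [this, two_zero, two_zero, add_zero, add_zero]
    · rfl
  rw [h1]
  exact (hI _ (hI _ hx _).2 _).1

theorem ideally (C : TopSgClass.{u}) (hC : ∀ (Y : Type u) [Semigroup Y] [TopologicalSpace Y]
    [ContinuousMul Y], C Y → T1S Y) : IdeallyClosed C R := by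
  intro I hI
  by_cases hne : I.Nonempty
  · -- the quotient is trivial
    obtain ⟨x, hx⟩ := hne
    intro Y _ _ _ hY h _
    have _ : T1Space Y := hC Y hY
    have hsub : ∀ a b : (rees I hI).Quotient, a = b := by
      intro a b
      refine Con.induction_on₂ a b (fun a b => ?_)
      exact (Con.eq _).mpr (Or.inr ⟨R_simple I hI x hx a, R_simple I hI x hx b⟩)
    have : Set.range h = {h ((x : R) : (rees I hI).Quotient)} := by
      ext y
      constructor
      · rintro ⟨a, rfl⟩
        rw [hsub a ((x : R) : (rees I hI).Quotient)]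
        rfl
      · rintro rfl
        exact ⟨_, rfl⟩
    rw [this]
    exact isClosed_singleton
  · -- the quotient is `R`
    have hemp : ∀ x, x ∉ I := fun x hx => hne ⟨x, hx⟩
    let e : R ≃* (rees I hI).Quotient :=
      { toFun := fun x => (x : (rees I hI).Quotient)
        invFun := fun q => Con.liftOn q id (fun a b hab => by
          rcases hab with h | ⟨h, -⟩
          · exact h
          · exact absurd h (hemp a))
        left_inv := fun x => rfl
        right_inv := fun q => Con.induction_on q (fun x => rfl)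
        map_mul' := fun x y => rfl }
    exact (R_closed C hC).of_equiv e

/-! ### The quotient which is not closed -/

/-- Same first coordinate. -/
noncomputable def firstCon : Con R where
  r x y := x.i = y.i
  iseqv := ⟨fun _ => rfl, fun h => h.symm, fun h1 h2 => h1.trans h2⟩
  mul' := fun h _ => h

/-- The left zero semigroup on the Cantor space. -/
def LZ : Type u := ℕ → ULift.{u} Bool

instance : Semigroup LZ.{u} where
  mul x _ := x
  mul_assoc _ _ _ := rfl

instance : TopologicalSpace LZ.{u} := inferInstanceAs (TopologicalSpace (ℕ → ULift.{u} Bool))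

instance : ContinuousMul LZ.{u} where
  continuous_mul := continuous_fst

theorem LZ_TzS : TzS LZ.{u} := by
  have h1 : CompactSpace LZ.{u} := inferInstanceAs (CompactSpace (ℕ → ULift.{u} Bool))
  have h2 : T2Space LZ.{u} := inferInstanceAs (T2Space (ℕ → ULift.{u} Bool))
  have h3 : TotallyDisconnectedSpace LZ.{u} :=
    inferInstanceAs (TotallyDisconnectedSpace (ℕ → ULift.{u} Bool))
  exact ⟨inferInstance, isTopologicalBasis_isClopen⟩

/-- The `n`-th unit vector. -/
def uv (n : ℕ) : LZ.{u} := fun m => ULift.up (decide (m = n))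

theorem not_closed : ¬ IsCClosed TzS.{u} firstCon.Quotient := by
  intro hcl
  let h : firstCon.Quotient →ₙ* LZ.{u} :=
    { toFun := fun q => Con.liftOn q (fun x => uv.{u} x.i)
        (fun a b hab => by
          have : a.i = b.i := hab
          rw [this])
      map_mul' := by
        intro a b
        refine Con.induction_on₂ a b (fun a b => rfl) }
  have hval : ∀ x : R, h (x : firstCon.Quotient) = uv.{u} x.i := fun x => rfl
  have hopen : ∀ n : ℕ, IsOpen {f : LZ.{u} | (f n).down = true} := by
    intro n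
    have hc : Continuous (fun f : ℕ → ULift.{u} Bool => f n) := continuous_apply n
    exact (isOpen_discrete {b : ULift.{u} Bool | b.down = true}).preimage hc
  have hmem : ∀ n m : ℕ, uv.{u} m ∈ {f : LZ.{u} | (f n).down = true} ↔ n = m := by
    intro n m
    show (decide (n = m)) = true ↔ n = m
    exact decide_eq_true_iff
  have hinj : Function.Injective h := by
    intro a b
    refine Con.induction_on₂ a b (fun a b => ?_)
    intro hab
    rw [hval, hval] at hab
    refine (Con.eq _).mpr ?_
    show a.i = b.i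
    have := (hmem a.i a.i).mpr rfl
    rw [hab] at this
    exact (hmem a.i b.i).mp this
  have h1 := hcl LZ.{u} LZ_TzS h (by
    let _ : TopologicalSpace firstCon.Quotient := ⊥
    refine ⟨⟨?_⟩, hinj⟩
    symm
    apply eq_bot_of_singletons_open
    intro q
    refine Con.induction_on q (fun x => ?_)
    refine isOpen_induced_iff.mpr ⟨_, hopen x.i, ?_⟩
    ext q'
    refine Con.induction_on q' (fun x' => ?_)
    constructor
    · intro hx'
      have h2 : x.i = x'.i := (hmem x.i x'.i).mp hx'
      exact (Con.eq _).mpr h2.symm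
    · intro hx'
      have h2 : x'.i = x.i := (Con.eq _).mp hx'
      exact (hmem x.i x'.i).mpr h2.symm)
  have hlim : Filter.Tendsto (fun n : ℕ => uv.{u} n) Filter.atTop
      (nhds (fun _ => ULift.up false : LZ.{u})) := by
    have : Filter.Tendsto (fun n : ℕ => (fun m => ULift.up (decide (m = n)) : ℕ → ULift.{u} Bool))
        Filter.atTop (nhds (fun _ => ULift.up false)) := by
      rw [tendsto_pi_nhds]
      intro m
      apply tendsto_nhds_of_eventually_eq
      filter_upwards [Filter.eventually_gt_atTop m] with n hn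
      have : m ≠ n := hn.ne
      simp [this]
    exact this
  have h2 : (fun _ => ULift.up false : LZ.{u}) ∈ Set.range h :=
    h1.mem_of_tendsto hlim (Filter.Eventually.of_forall (fun n =>
      ⟨((⟨n, 0, false⟩ : R) : firstCon.Quotient), rfl⟩))
  obtain ⟨q, hq⟩ := h2
  revert hq
  refine Con.induction_on q (fun x => ?_)
  intro hq
  rw [hval] at hq
  have h3 := (hmem x.i x.i).mpr rfl
  rw [hq] at h3
  exact absurd (show false = true from h3) Bool.false_ne_true

theorem result (C : TopSgClass.{u})
    (h1 : ∀ (Y : Type u) [Semigroup Y] [TopologicalSpace Y] [ContinuousMul Y], TzS Y → C Y)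
    (h2 : ∀ (Y : Type u) [Semigroup Y] [TopologicalSpace Y] [ContinuousMul Y], C Y → T1S Y) :
    ∃ (X : Type) (_ : Semigroup X), IdeallyClosed C X ∧ ¬ ProjectivelyClosed C X := by
  refine ⟨R, inferInstance, ideally C h2, ?_⟩
  intro h
  apply not_closed.{u}
  intro Y _ _ _ hY f hf
  exact h firstCon Y (h1 Y hY) f hf

end Pool.Agent.Results.MP_4caafd_al.IdeallyNotProjectively
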